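import Pool.Agent.H36.Diam.Basics

/-! DIAM-4. -/

namespace Pool.Agent.H30.Diam.Cross

open Finset Pool.Agent.H30.Diam Pool.Agent.H30.Diam.Basics

variable {α : Type} [DecidableEq α]

/-- for `z` in the list and `u` vanishing on the sets containing `z`:
`E u(W) 1[z ∈ W'] = q/(1-q) E u(W)`. -/
theorem DL_mem_right {q : ℝ} (h0 : 0 < q) (h1 : q ≤ 1 / 4) (z : α) :
    ∀ (l : List α), l.Nodup → z ∈ l → ∀ (u : Finset α → ℝ), (∀ W, z ∈ W → u W = 0) →
    DL q l (fun W W' => u W * ind (z ∈ W')) = q / (1 - q) * EL q l u := by
  intro l
  induction l with
  | nil => intro _ h; simp at h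
  | cons a l ih =>
      intro hnd hz u hu
      have hnd' := List.nodup_cons.1 hnd
      have hq : (1 - q) ≠ 0 := by linarith
      by_cases haz : a = z
      · subst haz
        -- z is the first coordinate
        simp only [DL, EL]
        have hzl : ∀ W : Finset α, W ⊆ l.toFinset → a ∉ W := fun W hW h =>
          hnd'.1 (List.mem_toFinset.1 (hW h))
        have e1 : DL q l (fun W W' => u W * ind (a ∈ W')) = 0 := by
          have : DL q l (fun W W' => u W * ind (a ∈ W')) = DL q l (fun _ _ => 0) :=
            DL_congr h0.le (by linarith) l hnd'.2 _ _ fun W W' _ hW' _ => by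
              rw [ind_false (hzl W' hW'), mul_zero]
          rw [this, DL_const]
        have e2 : DL q l (fun W W' => u (insert a W) * ind (a ∈ W')) = 0 := by
          have : DL q l (fun W W' => u (insert a W) * ind (a ∈ W')) = DL q l (fun _ _ => 0) :=
            DL_congr h0.le (by linarith) l hnd'.2 _ _ fun W W' _ hW' _ => by
              rw [ind_false (hzl W' hW'), mul_zero]
          rw [this, DL_const]
        have e3 : DL q l (fun W W' => u W * ind (a ∈ insert a W')) = EL q l u := by
          have : (fun (W W' : Finset α) => u W * ind (a ∈ insert a W')) = fun W _ => u W := by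
            funext W W'
            rw [ind_true (Finset.mem_insert_self a W'), mul_one]
          rw [this, DL_left]
        have e4 : EL q l (fun W => u (insert a W)) = 0 := by
          have : (fun W : Finset α => u (insert a W)) = fun _ => 0 := by
            funext W; exact hu _ (Finset.mem_insert_self a W)
          rw [this, EL_const]
        rw [e1, e2, e3, e4]
        field_simp
        ring
      · have hzl : z ∈ l := by
          rcases List.mem_cons.1 hz with h | h
          · exact absurd h.symm haz
          · exact h
        simp only [DL, EL]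
        have e1 := ih hnd'.2 hzl u hu
        have e2 := ih hnd'.2 hzl (fun W => u (insert a W)) (fun W hW =>
          hu _ (Finset.mem_insert_of_mem hW))
        have e3 : DL q l (fun W W' => u W * ind (z ∈ insert a W')) =
            DL q l (fun W W' => u W * ind (z ∈ W')) := by
          have : (fun (W W' : Finset α) => u W * ind (z ∈ insert a W')) =
              fun W W' => u W * ind (z ∈ W') := by
            funext W W'
            have : (z ∈ insert a W') ↔ z ∈ W' := by
              rw [Finset.mem_insert]
              constructor
              · rintro (h | h)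
                · exact absurd h.symm haz
                · exact h
              · exact Or.inr
            simp only [this]
          rw [this]
        rw [e3, e1, e2]
        ring

theorem cross : S_cross := by
  intro V _ _ q h0 h1 a w hd hw
  have key : Dv q (fun W W' => ((a W ∩ W').card : ℝ)) ≤ 2 * q * w := by
    have e1 : ∀ W W' : Finset V, ((a W ∩ W').card : ℝ) =
        ∑ z : V, ind (z ∈ a W) * ind (z ∈ W') := by
      intro W W'
      rw [card_eq_sum_ind]
      refine Finset.sum_congr rfl fun z _ => ?_
      rw [ind_mul]
      simp only [Finset.mem_inter]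
    have e2 : Dv q (fun W W' => ((a W ∩ W').card : ℝ)) =
        ∑ z : V, Dv q (fun W W' => ind (z ∈ a W) * ind (z ∈ W')) := by
      simp only [e1]
      exact Dv_sum q Finset.univ fun z (W W' : Finset V) => ind (z ∈ a W) * ind (z ∈ W')
    have e3 : ∀ z : V, Dv q (fun W W' => ind (z ∈ a W) * ind (z ∈ W')) =
        q / (1 - q) * Ev q (fun W => ind (z ∈ a W)) := fun z =>
      DL_mem_right h0 h1 z _ nd (by simp) (fun W => ind (z ∈ a W)) fun W hz =>
        ind_false fun h => (Finset.disjoint_left.1 (hd W) h hz)
    rw [e2]
    simp only [e3]
    rw [← Finset.mul_sum, ← Ev_sum]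
    have e4 : Ev q (fun W => ∑ z : V, ind (z ∈ a W)) ≤ w := by
      refine Ev_le_const h0.le (by linarith) _ _ fun W => ?_
      rw [← card_eq_sum_ind]
      exact_mod_cast hw W
    have e5 : q / (1 - q) ≤ 2 * q := by
      rw [div_le_iff₀ (by linarith)]
      nlinarith
    have e6 : 0 ≤ Ev q (fun W => ∑ z : V, ind (z ∈ a W)) := Ev_nonneg h0.le (by linarith) _
      fun W => Finset.sum_nonneg fun z _ => ind_nonneg _
    calc q / (1 - q) * Ev q (fun W => ∑ z : V, ind (z ∈ a W))
        ≤ 2 * q * Ev q (fun W => ∑ z : V, ind (z ∈ a W)) := mul_le_mul_of_nonneg_right e5 e6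
      _ ≤ 2 * q * w := mul_le_mul_of_nonneg_left e4 (by linarith)
  refine ⟨key, ?_⟩
  have := Dv_swap q (fun W W' => ((a W ∩ W').card : ℝ))
  rw [this]
  exact key

end Pool.Agent.H30.Diam.Cross
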