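import Pool.Agent.H36.Diam.Basics

/-! DIAM-3 and DIAM-5. -/

namespace Pool.Agent.H30.Diam.Mix

open Finset Pool.Agent.H30.Diam Pool.Agent.H30.Diam.Basics

theorem mix : S_mix := by
  intro α _ q h0 h1 l
  induction l with
  | nil => intro u v; simp [DL, EL]
  | cons a l ih =>
      intro u v
      have h00 := ih u v
      have h10 := ih (fun W => u (insert a W)) v
      have h01 := ih u (fun W => v (insert a W))
      simp only [DL, EL]
      set A := DL q l (fun W W' => u W * v W')
      set B := DL q l (fun W W' => u (insert a W) * v W')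
      set C := DL q l (fun W W' => u W * v (insert a W'))
      set u0 := EL q l u
      set v0 := EL q l v
      set u1 := EL q l (fun W => u (insert a W))
      set v1 := EL q l (fun W => v (insert a W))
      set su0 := EL q l (fun W => u W ^ 2)
      set sv0 := EL q l (fun W => v W ^ 2)
      set su1 := EL q l (fun W => u (insert a W) ^ 2)
      set sv1 := EL q l (fun W => v (insert a W) ^ 2)
      rw [abs_le] at h00 h10 h01 ⊢
      have m00a := mul_le_mul_of_nonneg_left h00.1 (by linarith : (0 : ℝ) ≤ 1 - 2 * q)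
      have m00b := mul_le_mul_of_nonneg_left h00.2 (by linarith : (0 : ℝ) ≤ 1 - 2 * q)
      have m10a := mul_le_mul_of_nonneg_left h10.1 h0.le
      have m10b := mul_le_mul_of_nonneg_left h10.2 h0.le
      have m01a := mul_le_mul_of_nonneg_left h01.1 h0.le
      have m01b := mul_le_mul_of_nonneg_left h01.2 h0.le
      have hx : 0 ≤ q ^ 2 * ((u1 - u0) + (v1 - v0)) ^ 2 := by positivity
      have hy : 0 ≤ q ^ 2 * ((u1 - u0) - (v1 - v0)) ^ 2 := by positivity
      have hz : 0 ≤ q ^ 2 * (1 - 2 * q) * ((u1 - u0) ^ 2 + (v1 - v0) ^ 2) := by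
        have : 0 ≤ 1 - 2 * q := by linarith
        positivity
      constructor
      · nlinarith
      · nlinarith

theorem common : S_common := by
  intro V _ _ q h0 h1 a b wa wb ha hb
  have e1 : ∀ W W' : Finset V, ((a W ∩ b W').card : ℝ) =
      ∑ z : V, ind (z ∈ a W) * ind (z ∈ b W') := by
    intro W W'
    rw [card_eq_sum_ind]
    refine Finset.sum_congr rfl fun z _ => ?_
    rw [ind_mul]
    simp only [Finset.mem_inter]
  have e2 : Dv q (fun W W' => ((a W ∩ b W').card : ℝ)) =
      ∑ z : V, Dv q (fun W W' => ind (z ∈ a W) * ind (z ∈ b W')) := by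
    simp only [e1]
    exact Dv_sum q Finset.univ fun z (W W' : Finset V) => ind (z ∈ a W) * ind (z ∈ b W')
  have e3 : ∀ z : V, Dv q (fun W W' => ind (z ∈ a W) * ind (z ∈ b W')) ≤
      Ev q (fun W => ind (z ∈ a W)) * Ev q (fun W => ind (z ∈ b W)) +
      q * (Ev q (fun W => ind (z ∈ a W)) + Ev q (fun W => ind (z ∈ b W))) := by
    intro z
    have h := (abs_le.1 (mix V q h0 h1 (Finset.univ : Finset V).toList (fun W => ind (z ∈ a W))
      (fun W => ind (z ∈ b W)))).2
    simp only [ind_sq] at h
    have i1 : 0 ≤ q * (EL q (Finset.univ : Finset V).toList (fun W => ind (z ∈ a W))) ^ 2 := by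
      positivity
    have i2 : 0 ≤ q * (EL q (Finset.univ : Finset V).toList (fun W => ind (z ∈ b W))) ^ 2 := by
      positivity
    unfold Dv Ev
    linarith
  have e4 : ∀ (c : Finset V → Finset V) (w : ℕ), (∀ W, (c W).card ≤ w) →
      ∑ z : V, Ev q (fun W => ind (z ∈ c W)) ≤ w := by
    intro c w hc
    rw [← Ev_sum]
    refine Ev_le_const h0.le (by linarith) _ _ fun W => ?_
    rw [← card_eq_sum_ind]
    exact_mod_cast hc W
  rw [e2]
  calc ∑ z : V, Dv q (fun W W' => ind (z ∈ a W) * ind (z ∈ b W'))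
      ≤ ∑ z : V, (Ev q (fun W => ind (z ∈ a W)) * Ev q (fun W => ind (z ∈ b W)) +
      q * (Ev q (fun W => ind (z ∈ a W)) + Ev q (fun W => ind (z ∈ b W)))) :=
        Finset.sum_le_sum fun z _ => e3 z
    _ = ∑ z : V, Ev q (fun W => ind (z ∈ a W)) * Ev q (fun W => ind (z ∈ b W)) +
        q * (∑ z : V, Ev q (fun W => ind (z ∈ a W)) + ∑ z : V, Ev q (fun W => ind (z ∈ b W))) := by
        rw [Finset.sum_add_distrib, ← Finset.mul_sum, Finset.sum_add_distrib]
    _ ≤ _ := by
        have := mul_le_mul_of_nonneg_left (add_le_add (e4 a wa ha) (e4 b wb hb)) h0.le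
        linarith

end Pool.Agent.H30.Diam.Mix
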