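import Pool.Agent.H36.Diam.Cross

/-! DIAM-6. -/

namespace Pool.Agent.H30.Diam.Pair

open Finset Pool.Agent.H30.Diam Pool.Agent.H30.Diam.Basics

theorem pair : S_pair := by
  classical
  intro V _ _ q h0 h1 G B p₁ p₂ wG wB e x y hx hG hy hB hlt
  set a : Finset V → Finset V := fun W => if p₁ W then lo G W else ∅ with ha
  set b : Finset V → Finset V := fun W => if p₂ W then lo B W else ∅ with hb
  have had : ∀ W, Disjoint (a W) W := by
    intro W; simp only [ha]; split_ifs
    · exact lo_disj G W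
    · exact Finset.disjoint_empty_left _
  have hbd : ∀ W, Disjoint (b W) W := by
    intro W; simp only [hb]; split_ifs
    · exact lo_disj B W
    · exact Finset.disjoint_empty_left _
  have haw : ∀ W, (a W).card ≤ wG := by
    intro W; simp only [ha]; split_ifs with h
    · exact hG W h
    · simp
  have hbw : ∀ W, (b W).card ≤ wB := by
    intro W; simp only [hb]; split_ifs with h
    · exact hB W h
    · simp
  have c1 := (Cross.cross V q h0 h1 a wG had haw).1
  have c2 := (Cross.cross V q h0 h1 b wB hbd hbw).2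
  have he : (0 : ℝ) < (e : ℝ) + 1 := by positivity
  set f : Finset V → Finset V → ℝ := fun W W' =>
    ((1 - ind (p₁ W)) + (1 - ind (p₂ W'))) +
      (((a W ∩ W').card : ℝ) + ((b W' ∩ W).card : ℝ)) * ((e : ℝ) + 1)⁻¹ with hf
  have hD : Dv q f = ((1 - Ev q (fun W => ind (p₁ W))) + (1 - Ev q (fun W => ind (p₂ W)))) +
      (Dv q (fun W W' => ((a W ∩ W').card : ℝ)) + Dv q (fun W W' => ((b W' ∩ W).card : ℝ))) *
        ((e : ℝ) + 1)⁻¹ := by
    simp only [hf]
    rw [Dv_add, Dv_add, Dv_sub, Dv_sub, Dv_const, Dv_mul_right, Dv_add]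
    have l1 := Dv_left q (fun W : Finset V => ind (p₁ W))
    have l2 := Dv_right q (fun W : Finset V => ind (p₂ W))
    rw [l1, l2]
  have hlt' : Dv q f < 1 := by
    rw [hD]
    have : (Dv q (fun W W' => ((a W ∩ W').card : ℝ)) + Dv q (fun W W' => ((b W' ∩ W).card : ℝ))) *
        ((e : ℝ) + 1)⁻¹ ≤ 2 * q * (wG + wB) / (e + 1) := by
      rw [div_eq_mul_inv]
      refine mul_le_mul_of_nonneg_right ?_ (by positivity)
      linarith
    linarith
  obtain ⟨W, W', hd, hfW⟩ := Dv_exists_lt h0.le (by linarith) f 1 hlt'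
  simp only [hf] at hfW
  have n1 : 0 ≤ 1 - ind (p₁ W) := by linarith [ind_le_one (p₁ W)]
  have n2 : 0 ≤ 1 - ind (p₂ W') := by linarith [ind_le_one (p₂ W')]
  have n3 : 0 ≤ (((a W ∩ W').card : ℝ) + ((b W' ∩ W).card : ℝ)) * ((e : ℝ) + 1)⁻¹ := by positivity
  have hp1 : p₁ W := by
    by_contra hcon
    rw [ind_false hcon] at hfW
    linarith
  have hp2 : p₂ W' := by
    by_contra hcon
    rw [ind_false hcon] at hfW
    linarith
  refine ⟨W, W', hd, hp1, hp2, ?_⟩
  have h3 : (((a W ∩ W').card : ℝ) + ((b W' ∩ W).card : ℝ)) * ((e : ℝ) + 1)⁻¹ < 1 := by linarith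
  rw [← div_eq_mul_inv, div_lt_one he] at h3
  have e1 : a W = lo G W := by simp only [ha]; rw [if_pos hp1]
  have e2 : b W' = lo B W' := by simp only [hb]; rw [if_pos hp2]
  rw [e1, e2] at h3
  have h4 : (lo G W ∩ W').card + (lo B W' ∩ W).card < e + 1 := by exact_mod_cast h3
  omega

end Pool.Agent.H30.Diam.Pair
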