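import Pool.Agent.H30.Diam.Stubs

/-! Project DIAM: basic properties of `EL`, `DL`, `Ev`, `Dv`, `ind`. -/

namespace Pool.Agent.H30.Diam.Basics

open Finset Pool.Agent.H30.Diam

section lists
variable {α : Type} [DecidableEq α]

theorem EL_add (q : ℝ) (l : List α) (f g : Finset α → ℝ) :
    EL q l (fun W => f W + g W) = EL q l f + EL q l g := by
  induction l generalizing f g with
  | nil => rfl
  | cons a l ih => simp only [EL]; rw [ih, ih]; ring

theorem EL_mul (q : ℝ) (l : List α) (c : ℝ) (f : Finset α → ℝ) :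
    EL q l (fun W => c * f W) = c * EL q l f := by
  induction l generalizing f with
  | nil => rfl
  | cons a l ih => simp only [EL]; rw [ih, ih]; ring

theorem EL_mul_right (q : ℝ) (l : List α) (c : ℝ) (f : Finset α → ℝ) :
    EL q l (fun W => f W * c) = EL q l f * c := by
  induction l generalizing f with
  | nil => rfl
  | cons a l ih => simp only [EL]; rw [ih, ih]; ring

theorem EL_neg (q : ℝ) (l : List α) (f : Finset α → ℝ) :
    EL q l (fun W => - f W) = - EL q l f := by
  induction l generalizing f with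
  | nil => rfl
  | cons a l ih => simp only [EL]; rw [ih, ih]; ring

theorem EL_sub (q : ℝ) (l : List α) (f g : Finset α → ℝ) :
    EL q l (fun W => f W - g W) = EL q l f - EL q l g := by
  induction l generalizing f g with
  | nil => rfl
  | cons a l ih => simp only [EL]; rw [ih, ih]; ring

theorem EL_const (q : ℝ) (l : List α) (c : ℝ) : EL q l (fun _ => c) = c := by
  induction l with
  | nil => rfl
  | cons a l ih => simp only [EL]; rw [ih]; ring

theorem EL_sum {ι : Type*} (q : ℝ) (l : List α) (s : Finset ι) (f : ι → Finset α → ℝ) :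
    EL q l (fun W => ∑ i ∈ s, f i W) = ∑ i ∈ s, EL q l (f i) := by
  classical
  induction s using Finset.induction_on with
  | empty => simpa using EL_const q l 0
  | insert i s hi ih =>
      simp only [Finset.sum_insert hi]
      rw [EL_add, ih]

/-- monotonicity of `EL` (only subsets of the support matter). -/
theorem EL_mono {q : ℝ} (h0 : 0 ≤ q) (h1 : q ≤ 1) (l : List α) (f g : Finset α → ℝ)
    (h : ∀ W, W ⊆ l.toFinset → f W ≤ g W) : EL q l f ≤ EL q l g := by
  induction l generalizing f g with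
  | nil => exact h ∅ (by simp)
  | cons a l ih =>
      simp only [EL]
      have e1 := ih f g (fun W hW => h W (by
        rw [List.toFinset_cons]; exact hW.trans (Finset.subset_insert _ _)))
      have e2 := ih (fun W => f (insert a W)) (fun W => g (insert a W)) (fun W hW => h _ (by
        rw [List.toFinset_cons]; exact Finset.insert_subset_insert _ hW))
      have : 0 ≤ 1 - q := by linarith
      nlinarith [mul_le_mul_of_nonneg_left e1 this, mul_le_mul_of_nonneg_left e2 h0]

theorem EL_congr (q : ℝ) (l : List α) (f g : Finset α → ℝ)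
    (h : ∀ W, W ⊆ l.toFinset → f W = g W) : EL q l f = EL q l g := by
  induction l generalizing f g with
  | nil => exact h ∅ (by simp)
  | cons a l ih =>
      simp only [EL]
      rw [ih f g (fun W hW => h W (by
        rw [List.toFinset_cons]; exact hW.trans (Finset.subset_insert _ _))),
        ih (fun W => f (insert a W)) (fun W => g (insert a W)) (fun W hW => h _ (by
        rw [List.toFinset_cons]; exact Finset.insert_subset_insert _ hW))]

theorem EL_nonneg {q : ℝ} (h0 : 0 ≤ q) (h1 : q ≤ 1) (l : List α) (f : Finset α → ℝ)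
    (h : ∀ W, W ⊆ l.toFinset → 0 ≤ f W) : 0 ≤ EL q l f := by
  have := EL_mono h0 h1 l (fun _ => 0) f h
  rwa [EL_const] at this

theorem EL_le_const {q : ℝ} (h0 : 0 ≤ q) (h1 : q ≤ 1) (l : List α) (f : Finset α → ℝ) (c : ℝ)
    (h : ∀ W, W ⊆ l.toFinset → f W ≤ c) : EL q l f ≤ c := by
  have := EL_mono h0 h1 l f (fun _ => c) h
  rwa [EL_const] at this

/-- if the expectation is less than `c` then some value is less than `c`. -/
theorem EL_exists_lt {q : ℝ} (h0 : 0 ≤ q) (h1 : q ≤ 1) (l : List α) (f : Finset α → ℝ) (c : ℝ)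
    (h : EL q l f < c) : ∃ W, W ⊆ l.toFinset ∧ f W < c := by
  by_contra hcon
  push Not at hcon
  have := EL_mono h0 h1 l (fun _ => c) f hcon
  rw [EL_const] at this
  linarith

theorem EL_exists_ge {q : ℝ} (h0 : 0 ≤ q) (h1 : q ≤ 1) (l : List α) (f : Finset α → ℝ) (c : ℝ)
    (h : c ≤ EL q l f) : ∃ W, W ⊆ l.toFinset ∧ c ≤ f W := by
  by_contra hcon
  push Not at hcon
  -- f < c on finitely many sets, take the maximum
  obtain ⟨W0, hW0, hmax⟩ := Finset.exists_max_image l.toFinset.powerset f ⟨∅, by simp⟩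
  have h2 := EL_mono h0 h1 l f (fun _ => f W0) (fun W hW => hmax W (Finset.mem_powerset.2 hW))
  rw [EL_const] at h2
  have h3 := hcon W0 (Finset.mem_powerset.1 hW0)
  linarith

/-- **Cauchy-Schwarz** / Jensen: `(E f)^2 ≤ E f^2`. -/
theorem EL_sq_le {q : ℝ} (h0 : 0 ≤ q) (h1 : q ≤ 1) (l : List α) (f : Finset α → ℝ) :
    (EL q l f) ^ 2 ≤ EL q l (fun W => f W ^ 2) := by
  have h := EL_nonneg h0 h1 l (fun W => (f W - EL q l f) ^ 2) (fun W _ => sq_nonneg _)
  have e : EL q l (fun W => (f W - EL q l f) ^ 2) =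
      EL q l (fun W => f W ^ 2) - (EL q l f) ^ 2 := by
    set m := EL q l f with hm
    have : (fun W => (f W - m) ^ 2) = fun W => (f W ^ 2 - (2 * m) * f W) + m ^ 2 := by
      funext W; ring
    rw [this, EL_add, EL_sub, EL_mul, EL_const, ← hm]; ring
  rw [e] at h; linarith

theorem DL_add (q : ℝ) (l : List α) (f g : Finset α → Finset α → ℝ) :
    DL q l (fun W W' => f W W' + g W W') = DL q l f + DL q l g := by
  induction l generalizing f g with
  | nil => rfl
  | cons a l ih => simp only [DL]; rw [ih, ih, ih]; ring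

theorem DL_mul (q : ℝ) (l : List α) (c : ℝ) (f : Finset α → Finset α → ℝ) :
    DL q l (fun W W' => c * f W W') = c * DL q l f := by
  induction l generalizing f with
  | nil => rfl
  | cons a l ih => simp only [DL]; rw [ih, ih, ih]; ring

theorem DL_mul_right (q : ℝ) (l : List α) (c : ℝ) (f : Finset α → Finset α → ℝ) :
    DL q l (fun W W' => f W W' * c) = DL q l f * c := by
  induction l generalizing f with
  | nil => rfl
  | cons a l ih => simp only [DL]; rw [ih, ih, ih]; ring

theorem DL_neg (q : ℝ) (l : List α) (f : Finset α → Finset α → ℝ) :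
    DL q l (fun W W' => - f W W') = - DL q l f := by
  induction l generalizing f with
  | nil => rfl
  | cons a l ih => simp only [DL]; rw [ih, ih, ih]; ring

theorem DL_sub (q : ℝ) (l : List α) (f g : Finset α → Finset α → ℝ) :
    DL q l (fun W W' => f W W' - g W W') = DL q l f - DL q l g := by
  induction l generalizing f g with
  | nil => rfl
  | cons a l ih => simp only [DL]; rw [ih, ih, ih]; ring

theorem DL_const (q : ℝ) (l : List α) (c : ℝ) : DL q l (fun _ _ => c) = c := by
  induction l with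
  | nil => rfl
  | cons a l ih => simp only [DL]; rw [ih]; ring

theorem DL_sum {ι : Type*} (q : ℝ) (l : List α) (s : Finset ι)
    (f : ι → Finset α → Finset α → ℝ) :
    DL q l (fun W W' => ∑ i ∈ s, f i W W') = ∑ i ∈ s, DL q l (f i) := by
  classical
  induction s using Finset.induction_on with
  | empty => simpa using DL_const q l 0
  | insert i s hi ih =>
      simp only [Finset.sum_insert hi]
      rw [DL_add, ih]

/-- the first marginal. -/
theorem DL_left (q : ℝ) (l : List α) (g : Finset α → ℝ) :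
    DL q l (fun W _ => g W) = EL q l g := by
  induction l generalizing g with
  | nil => rfl
  | cons a l ih => simp only [DL, EL]; rw [ih, ih]; ring

/-- the second marginal. -/
theorem DL_right (q : ℝ) (l : List α) (g : Finset α → ℝ) :
    DL q l (fun _ W' => g W') = EL q l g := by
  induction l generalizing g with
  | nil => rfl
  | cons a l ih => simp only [DL, EL]; rw [ih, ih]; ring

/-- the pair is symmetric. -/
theorem DL_swap (q : ℝ) (l : List α) (f : Finset α → Finset α → ℝ) :
    DL q l (fun W W' => f W' W) = DL q l f := by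
  induction l generalizing f with
  | nil => rfl
  | cons a l ih =>
      simp only [DL]
      rw [ih, ih (fun W W' => f (insert a W) W'), ih (fun W W' => f W (insert a W'))]; ring

/-- monotonicity of `DL`: only disjoint pairs of subsets of the support matter. -/
theorem DL_mono {q : ℝ} (h0 : 0 ≤ q) (h1 : q ≤ 1 / 2) (l : List α) (hl : l.Nodup)
    (f g : Finset α → Finset α → ℝ)
    (h : ∀ W W', W ⊆ l.toFinset → W' ⊆ l.toFinset → Disjoint W W' → f W W' ≤ g W W') :
    DL q l f ≤ DL q l g := by
  induction l generalizing f g with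
  | nil => exact h ∅ ∅ (by simp) (by simp) (by simp)
  | cons a l ih =>
      have hl' := List.nodup_cons.1 hl
      simp only [DL]
      have e1 := ih hl'.2 f g (fun W W' hW hW' hd => h W W'
        (by rw [List.toFinset_cons]; exact hW.trans (Finset.subset_insert _ _))
        (by rw [List.toFinset_cons]; exact hW'.trans (Finset.subset_insert _ _)) hd)
      have hna : ∀ W : Finset α, W ⊆ l.toFinset → a ∉ W := fun W hW ha =>
        hl'.1 (List.mem_toFinset.1 (hW ha))
      have e2 := ih hl'.2 (fun W W' => f (insert a W) W') (fun W W' => g (insert a W) W')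
        (fun W W' hW hW' hd => h _ _
          (by rw [List.toFinset_cons]; exact Finset.insert_subset_insert _ hW)
          (by rw [List.toFinset_cons]; exact hW'.trans (Finset.subset_insert _ _))
          (Finset.disjoint_insert_left.2 ⟨hna W' hW', hd⟩))
      have e3 := ih hl'.2 (fun W W' => f W (insert a W')) (fun W W' => g W (insert a W'))
        (fun W W' hW hW' hd => h _ _
          (by rw [List.toFinset_cons]; exact hW.trans (Finset.subset_insert _ _))
          (by rw [List.toFinset_cons]; exact Finset.insert_subset_insert _ hW')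
          (Finset.disjoint_insert_right.2 ⟨hna W hW, hd⟩))
      have : 0 ≤ 1 - 2 * q := by linarith
      nlinarith [mul_le_mul_of_nonneg_left e1 this, mul_le_mul_of_nonneg_left e2 h0,
        mul_le_mul_of_nonneg_left e3 h0]

theorem DL_congr {q : ℝ} (h0 : 0 ≤ q) (h1 : q ≤ 1 / 2) (l : List α) (hl : l.Nodup)
    (f g : Finset α → Finset α → ℝ)
    (h : ∀ W W', W ⊆ l.toFinset → W' ⊆ l.toFinset → Disjoint W W' → f W W' = g W W') :
    DL q l f = DL q l g :=
  le_antisymm (DL_mono h0 h1 l hl f g fun W W' a b c => (h W W' a b c).le)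
    (DL_mono h0 h1 l hl g f fun W W' a b c => (h W W' a b c).ge)

theorem DL_exists_lt {q : ℝ} (h0 : 0 ≤ q) (h1 : q ≤ 1 / 2) (l : List α) (hl : l.Nodup)
    (f : Finset α → Finset α → ℝ) (c : ℝ) (h : DL q l f < c) :
    ∃ W W', W ⊆ l.toFinset ∧ W' ⊆ l.toFinset ∧ Disjoint W W' ∧ f W W' < c := by
  by_contra hcon
  push Not at hcon
  have := DL_mono h0 h1 l hl (fun _ _ => c) f hcon
  rw [DL_const] at this
  linarith

end lists

section types
variable {V : Type} [Fintype V] [DecidableEq V]

omit [DecidableEq V] in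
theorem nd : (Finset.univ : Finset V).toList.Nodup := Finset.nodup_toList _

theorem Ev_add (q : ℝ) (f g : Finset V → ℝ) : Ev q (fun W => f W + g W) = Ev q f + Ev q g :=
  EL_add q _ f g

theorem Ev_sub (q : ℝ) (f g : Finset V → ℝ) : Ev q (fun W => f W - g W) = Ev q f - Ev q g :=
  EL_sub q _ f g

theorem Ev_mul (q c : ℝ) (f : Finset V → ℝ) : Ev q (fun W => c * f W) = c * Ev q f :=
  EL_mul q _ c f

theorem Ev_mul_right (q c : ℝ) (f : Finset V → ℝ) : Ev q (fun W => f W * c) = Ev q f * c :=
  EL_mul_right q _ c f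

theorem Ev_const (q c : ℝ) : Ev q (fun _ : Finset V => c) = c := EL_const q _ c

theorem Ev_sum {ι : Type*} (q : ℝ) (s : Finset ι) (f : ι → Finset V → ℝ) :
    Ev q (fun W => ∑ i ∈ s, f i W) = ∑ i ∈ s, Ev q (f i) := EL_sum q _ s f

theorem Ev_mono {q : ℝ} (h0 : 0 ≤ q) (h1 : q ≤ 1) (f g : Finset V → ℝ)
    (h : ∀ W, f W ≤ g W) : Ev q f ≤ Ev q g := EL_mono h0 h1 _ f g fun W _ => h W

theorem Ev_nonneg {q : ℝ} (h0 : 0 ≤ q) (h1 : q ≤ 1) (f : Finset V → ℝ)
    (h : ∀ W, 0 ≤ f W) : 0 ≤ Ev q f := EL_nonneg h0 h1 _ f fun W _ => h W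

theorem Ev_le_const {q : ℝ} (h0 : 0 ≤ q) (h1 : q ≤ 1) (f : Finset V → ℝ) (c : ℝ)
    (h : ∀ W, f W ≤ c) : Ev q f ≤ c := EL_le_const h0 h1 _ f c fun W _ => h W

theorem Ev_exists_ge {q : ℝ} (h0 : 0 ≤ q) (h1 : q ≤ 1) (f : Finset V → ℝ) (c : ℝ)
    (h : c ≤ Ev q f) : ∃ W, c ≤ f W := by
  obtain ⟨W, _, hW⟩ := EL_exists_ge h0 h1 _ f c h
  exact ⟨W, hW⟩

theorem Ev_exists_lt {q : ℝ} (h0 : 0 ≤ q) (h1 : q ≤ 1) (f : Finset V → ℝ) (c : ℝ)
    (h : Ev q f < c) : ∃ W, f W < c := by
  obtain ⟨W, _, hW⟩ := EL_exists_lt h0 h1 _ f c h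
  exact ⟨W, hW⟩

theorem Dv_add (q : ℝ) (f g : Finset V → Finset V → ℝ) :
    Dv q (fun W W' => f W W' + g W W') = Dv q f + Dv q g := DL_add q _ f g

theorem Dv_sub (q : ℝ) (f g : Finset V → Finset V → ℝ) :
    Dv q (fun W W' => f W W' - g W W') = Dv q f - Dv q g := DL_sub q _ f g

theorem Dv_mul (q c : ℝ) (f : Finset V → Finset V → ℝ) :
    Dv q (fun W W' => c * f W W') = c * Dv q f := DL_mul q _ c f

theorem Dv_mul_right (q c : ℝ) (f : Finset V → Finset V → ℝ) :
    Dv q (fun W W' => f W W' * c) = Dv q f * c := DL_mul_right q _ c f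

theorem Dv_const (q c : ℝ) : Dv q (fun _ _ : Finset V => c) = c := DL_const q _ c

theorem Dv_sum {ι : Type*} (q : ℝ) (s : Finset ι) (f : ι → Finset V → Finset V → ℝ) :
    Dv q (fun W W' => ∑ i ∈ s, f i W W') = ∑ i ∈ s, Dv q (f i) := DL_sum q _ s f

theorem Dv_left (q : ℝ) (g : Finset V → ℝ) : Dv q (fun W _ => g W) = Ev q g := DL_left q _ g

theorem Dv_right (q : ℝ) (g : Finset V → ℝ) : Dv q (fun _ W' => g W') = Ev q g := DL_right q _ g

theorem Dv_swap (q : ℝ) (f : Finset V → Finset V → ℝ) :
    Dv q (fun W W' => f W' W) = Dv q f := DL_swap q _ f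

theorem Dv_mono {q : ℝ} (h0 : 0 ≤ q) (h1 : q ≤ 1 / 2) (f g : Finset V → Finset V → ℝ)
    (h : ∀ W W', Disjoint W W' → f W W' ≤ g W W') : Dv q f ≤ Dv q g :=
  DL_mono h0 h1 _ nd f g fun W W' _ _ hd => h W W' hd

theorem Dv_exists_lt {q : ℝ} (h0 : 0 ≤ q) (h1 : q ≤ 1 / 2) (f : Finset V → Finset V → ℝ) (c : ℝ)
    (h : Dv q f < c) : ∃ W W', Disjoint W W' ∧ f W W' < c := by
  obtain ⟨W, W', _, _, hd, hW⟩ := DL_exists_lt h0 h1 _ nd f c h
  exact ⟨W, W', hd, hW⟩

end types

theorem ind_true {p : Prop} (h : p) : ind p = 1 := by unfold ind; rw [if_pos h]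
theorem ind_false {p : Prop} (h : ¬ p) : ind p = 0 := by unfold ind; rw [if_neg h]
theorem ind_nonneg (p : Prop) : 0 ≤ ind p := by unfold ind; split_ifs <;> norm_num
theorem ind_le_one (p : Prop) : ind p ≤ 1 := by unfold ind; split_ifs <;> norm_num
theorem ind_sq (p : Prop) : ind p ^ 2 = ind p := by unfold ind; split_ifs <;> norm_num
theorem ind_mul (p r : Prop) : ind p * ind r = ind (p ∧ r) := by
  unfold ind; by_cases hp : p <;> by_cases hr : r <;> simp [hp, hr]
theorem ind_not (p : Prop) : ind (¬ p) = 1 - ind p := by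
  unfold ind; by_cases hp : p <;> simp [hp]
theorem ind_mono {p r : Prop} (h : p → r) : ind p ≤ ind r := by
  unfold ind; by_cases hp : p
  · simp [hp, h hp]
  · by_cases hr : r <;> simp [hp, hr]

/-- cardinality as a sum of indicators. -/
theorem card_eq_sum_ind {V : Type} [Fintype V] [DecidableEq V] (s : Finset V) :
    (s.card : ℝ) = ∑ z : V, ind (z ∈ s) := by
  have h : ∀ z : V, ind (z ∈ s) = if z ∈ s then (1 : ℝ) else 0 := fun z => by
    by_cases hz : z ∈ s
    · rw [ind_true hz, if_pos hz]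
    · rw [ind_false hz, if_neg hz]
  simp only [h]
  simp

end Pool.Agent.H30.Diam.Basics
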